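import Pool.Agent.H23.SchDefs
import Pool.Agent.H23.SchFin

set_option autoImplicit false

namespace Pool.Agent.Results.MP_08b069_al.NotAtomic

open Pool.Agent.H23.Sch

/-- The lattice of Schunck classes (of finite soluble groups, ordered by `≪`) is not atomic:
there is a Schunck class `X ≠ {1}` with no atom `A ≪ X`. -/
theorem result : ∃ X : GC, IsSchunck X ∧ NonTriv X ∧ ∀ A : GC, IsAtomClass A → ¬ LL A X :=
  ⟨TT 0, TT_schunck 0, TT_nontriv 0, fun A hA => main A hA⟩

end Pool.Agent.Results.MP_08b069_al.NotAtomic
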